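import Mathlib

/-! Counting points and planes, and a choice of signs on odd fibres. -/

namespace Pool.Agent.P.MP_bdb267_co

open Module Submodule

section Count
variable {K V : Type*} [Field K] [Finite K] [AddCommGroup V] [Module K V] [FiniteDimensional K V]

omit [FiniteDimensional K V] in
lemma ncard_points {n : ℕ} (h : finrank K V = n) :
    {P : Submodule K V | finrank K P = 1}.ncard = ∑ i ∈ Finset.range n, Nat.card K ^ i := by
  rw [← Projectivization.card_of_finrank K V h,
    Nat.card_congr (Projectivization.equivSubmodule K V)]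
  rfl

omit [FiniteDimensional K V] in
lemma ncard_points_le (W : Submodule K V) {n : ℕ} (h : finrank K W = n) :
    {P : Submodule K V | finrank K P = 1 ∧ P ≤ W}.ncard = ∑ i ∈ Finset.range n, Nat.card K ^ i := by
  rw [← ncard_points h]
  symm
  apply Set.ncard_congr (fun P _ => P.map W.subtype)
  · intro P hP
    exact ⟨by rw [finrank_map_subtype_eq]; exact hP, map_subtype_le W P⟩
  · intro P Q _ _ hPQ
    exact map_injective_of_injective W.injective_subtype hPQ
  · rintro P ⟨hP, hPW⟩
    have e : (P.comap W.subtype).map W.subtype = P := by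
      rw [map_comap_subtype, inf_eq_right.2 hPW]
    refine ⟨P.comap W.subtype, ?_, e⟩
    show finrank K _ = 1
    rw [← finrank_map_subtype_eq, e, hP]

omit [Finite K] in
lemma finrank_map_mkQ {T B : Submodule K V} (h : T ≤ B) :
    finrank K (B.map T.mkQ) + finrank K T = finrank K B := by
  have h1 := LinearMap.finrank_range_add_finrank_ker (T.mkQ.comp B.subtype)
  rw [LinearMap.range_comp, range_subtype, LinearMap.ker_comp, ker_mkQ,
    (comapSubtypeEquivOfLe h).finrank_eq] at h1
  exact h1

lemma ncard_above (T : Submodule K V) {n : ℕ} (h : finrank K V = finrank K T + n) :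
    {B : Submodule K V | finrank K B = finrank K T + 1 ∧ T ≤ B}.ncard =
      ∑ i ∈ Finset.range n, Nat.card K ^ i := by
  have hq : finrank K (V ⧸ T) = n := by
    have := T.finrank_quotient_add_finrank
    omega
  rw [← ncard_points hq]
  apply Set.ncard_congr (fun B _ => B.map T.mkQ)
  · rintro B ⟨hB, hTB⟩
    have := finrank_map_mkQ hTB
    show finrank K _ = 1
    omega
  · rintro B C ⟨_, hB⟩ ⟨_, hC⟩ hBC
    have := congrArg (comap T.mkQ) hBC
    simpa [comap_map_mkQ, sup_eq_right.2 hB, sup_eq_right.2 hC] using this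
  · intro P hP
    have e : (P.comap T.mkQ).map T.mkQ = P := map_comap_eq_of_surjective T.mkQ_surjective P
    have hle : T ≤ P.comap T.mkQ := le_comap_mkQ T P
    refine ⟨P.comap T.mkQ, ⟨?_, hle⟩, e⟩
    have := finrank_map_mkQ hle
    rw [e] at this
    have hP' : finrank K P = 1 := hP
    omega

end Count

lemma exists_signs {α γ : Type*} [DecidableEq γ] (s : Finset α) (f : α → γ) :
    ∃ ε : α → ℤ, (∀ a, ε a = 1 ∨ ε a = -1) ∧
      ∀ b, Odd (s.filter (fun a => f a = b)).card → ∑ a ∈ s.filter (fun a => f a = b), ε a = 1 := by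
  classical
  have h : ∀ b : γ, ∃ t ⊆ s.filter (fun a => f a = b),
      t.card = ((s.filter (fun a => f a = b)).card + 1) / 2 := fun b =>
    Finset.exists_subset_card_eq (by omega)
  choose t ht hc using h
  refine ⟨fun a => if a ∈ t (f a) then 1 else -1, fun a => by by_cases h : a ∈ t (f a) <;> simp [h],
    fun b hb => ?_⟩
  have e : ∑ a ∈ s.filter (fun a => f a = b), (if a ∈ t (f a) then (1 : ℤ) else -1) =
      ∑ a ∈ s.filter (fun a => f a = b), (if a ∈ t b then (1 : ℤ) else -1) :=
    Finset.sum_congr rfl fun a ha => by rw [(Finset.mem_filter.1 ha).2]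
  rw [e, Finset.sum_ite]
  have e1 : (s.filter (fun a => f a = b)).filter (fun a => a ∈ t b) = t b := by
    ext a
    simp only [Finset.mem_filter]
    exact ⟨fun h => h.2, fun h => ⟨Finset.mem_filter.1 (ht b h), h⟩⟩
  have e2 := Finset.card_filter_add_card_filter_not (s := s.filter (fun a => f a = b))
    (fun a => a ∈ t b)
  rw [e1] at e2 ⊢
  simp only [Finset.sum_const, nsmul_eq_mul, mul_one, mul_neg]
  have := hc b
  obtain ⟨k, hk⟩ := hb
  omega

end Pool.Agent.P.MP_bdb267_co
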