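import Mathlib

/-! Totally isotropic planes through a line for a split quadratic form in dimension six. -/

namespace Pool.Agent.P.MP_bdb267_co

open Module Submodule

section Forms
variable {K V : Type*} [Field K] [AddCommGroup V] [Module K V] [FiniteDimensional K V]

lemma finrank_sup_span {T : Submodule K V} {w : V} (hw : w ∉ T) :
    finrank K (T ⊔ K ∙ w : Submodule K V) = finrank K T + 1 := by
  have hw0 : w ≠ 0 := fun h => hw (h ▸ T.zero_mem)
  have h1 := finrank_sup_add_finrank_inf_eq T (K ∙ w)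
  have h2 : T ⊓ (K ∙ w) = ⊥ := by
    rw [← disjoint_iff]
    exact (Submodule.disjoint_span_singleton' hw0).2 hw
  rw [h2, finrank_bot, finrank_span_singleton hw0] at h1
  omega

lemma eq_sup_span {T B : Submodule K V} (hTB : T ≤ B) (h : finrank K B = finrank K T + 1)
    {w : V} (hwB : w ∈ B) (hwT : w ∉ T) : B = T ⊔ K ∙ w := by
  symm
  apply eq_of_le_of_finrank_eq (sup_le hTB ((span_singleton_le_iff_mem _ _).2 hwB))
  rw [finrank_sup_span hwT, h]

lemma exists_sup_span {T B : Submodule K V} (hTB : T ≤ B) (h : finrank K B = finrank K T + 1) :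
    ∃ w ∈ B, w ∉ T ∧ B = T ⊔ K ∙ w := by
  have hlt : T < B := lt_of_le_of_ne hTB (by rintro rfl; omega)
  obtain ⟨w, hwB, hwT⟩ := SetLike.exists_of_lt hlt
  exact ⟨w, hwB, hwT, eq_sup_span hTB h hwB hwT⟩

omit [FiniteDimensional K V] in
lemma orth_sup (β : LinearMap.BilinForm K V) (A B : Submodule K V) :
    β.orthogonal (A ⊔ B) = β.orthogonal A ⊓ β.orthogonal B := by
  apply le_antisymm
  · exact le_inf (LinearMap.BilinForm.orthogonal_le le_sup_left)
      (LinearMap.BilinForm.orthogonal_le le_sup_right)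
  · intro x hx n hn
    obtain ⟨a, ha, b, hb, rfl⟩ := mem_sup.1 hn
    have h1 : β a x = 0 := hx.1 a ha
    have h2 : β b x = 0 := hx.2 b hb
    simp [h1, h2]

omit [FiniteDimensional K V] in
lemma iso_sup_span (β : LinearMap.BilinForm K V) (hs : ∀ x y, β x y = β y x)
    {T : Submodule K V} (hT : T ≤ β.orthogonal T) {w : V} (hw : w ∈ β.orthogonal T)
    (hww : β w w = 0) : T ⊔ (K ∙ w) ≤ β.orthogonal (T ⊔ K ∙ w) := by
  intro x hx y hy
  obtain ⟨a, ha, b, hb, rfl⟩ := mem_sup.1 hx
  obtain ⟨c, hc, d, hd, rfl⟩ := mem_sup.1 hy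
  obtain ⟨s, rfl⟩ := mem_span_singleton.1 hb
  obtain ⟨t, rfl⟩ := mem_span_singleton.1 hd
  have h1 : β c a = 0 := hT ha c hc
  have h2 : β c w = 0 := hw c hc
  have h3 : β w a = 0 := by rw [hs]; exact hw a ha
  simp [h1, h2, h3, hww]

theorem parity (β : LinearMap.BilinForm K V) (hs : ∀ x y, β x y = β y x) (hn : β.Nondegenerate)
    (h2 : (2 : K) ≠ 0) (hV : finrank K V = 6) (B0 : Submodule K V) (h0 : finrank K B0 = 3)
    (hB0 : B0 ≤ β.orthogonal B0) (T : Submodule K V) (hT : finrank K T = 2)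
    (hTi : T ≤ β.orthogonal T) :
    ∃ U U' : Submodule K V, U ≠ U' ∧
      (∀ B, (T ≤ B ∧ finrank K B = 3 ∧ B ≤ β.orthogonal B) ↔ B = U ∨ B = U') ∧
      finrank K (U ⊓ B0 : Submodule K V) = finrank K (U' ⊓ B0 : Submodule K V) + 1 := by
  have hdim : ∀ W : Submodule K V, finrank K (β.orthogonal W) = 6 - finrank K W := fun W => by
    rw [LinearMap.BilinForm.finrank_orthogonal hn, hV]
  have hself : ∀ W : Submodule K V, finrank K W = 3 → W ≤ β.orthogonal W → β.orthogonal W = W := by
    intro W hW hle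
    symm
    apply eq_of_le_of_finrank_eq hle
    rw [hdim, hW]
  set P := β.orthogonal T with hP
  have hPdim : finrank K P = 4 := by rw [hP, hdim, hT]
  set U := T ⊔ (B0 ⊓ P) with hU
  have hBP : B0 ⊓ P = β.orthogonal (B0 ⊔ T) := by rw [orth_sup, hself B0 h0 hB0]
  have e1 := finrank_sup_add_finrank_inf_eq B0 T
  have e2 : finrank K (B0 ⊓ P : Submodule K V) = finrank K (B0 ⊓ T : Submodule K V) + 1 := by
    rw [hBP, hdim]
    have : finrank K (B0 ⊓ T : Submodule K V) ≤ 2 := hT ▸ finrank_mono inf_le_right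
    omega
  have e3 := finrank_sup_add_finrank_inf_eq T (B0 ⊓ P)
  have e4 : T ⊓ (B0 ⊓ P) = B0 ⊓ T := by
    apply le_antisymm
    · exact le_inf (inf_le_right.trans inf_le_left) inf_le_left
    · exact le_inf inf_le_right (le_inf inf_le_left (inf_le_right.trans hTi))
  have hUdim : finrank K U = 3 := by rw [e4, e2, hT] at e3; rw [hU]; omega
  have hTU : T ≤ U := le_sup_left
  have hUP : U ≤ P := sup_le hTi inf_le_right
  have hUi : U ≤ β.orthogonal U := by
    intro x hx y hy
    obtain ⟨a, ha, b, hb, rfl⟩ := mem_sup.1 hx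
    obtain ⟨c, hc, d, hd, rfl⟩ := mem_sup.1 hy
    have h1 : β c a = 0 := hTi ha c hc
    have h2 : β c b = 0 := hb.2 c hc
    have h3 : β d a = 0 := by rw [hs]; exact hd.2 a ha
    have h4 : β d b = 0 := hB0 hb.1 d hd.1
    simp [h1, h2, h3, h4]
  have hUB : U ⊓ B0 = B0 ⊓ P := by
    apply le_antisymm
    · exact le_inf inf_le_right (inf_le_left.trans hUP)
    · exact le_inf le_sup_right inf_le_left
  obtain ⟨u, huU, huT, hUu⟩ := exists_sup_span hTU (by rw [hUdim, hT])
  obtain ⟨v, hvP, hvU, -⟩ := exists_sup_span hUP (by rw [hUdim, hPdim])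
  have huv : β u v ≠ 0 := by
    intro h
    apply hvU
    rw [← hself U hUdim hUi]
    intro y hy
    rw [hUu] at hy
    obtain ⟨c, hc, d, hd, rfl⟩ := mem_sup.1 hy
    obtain ⟨t, rfl⟩ := mem_span_singleton.1 hd
    have h1 : β c v = 0 := hvP c hc
    simp [h1, h]
  have huu : β u u = 0 := hUi huU u huU
  set v' := v - (β v v / (2 * β u v)) • u with hv'
  have hv'P : v' ∈ P := P.sub_mem hvP (P.smul_mem _ (hUP huU))
  have hv'U : v' ∉ U := by
    intro h
    apply hvU
    have := U.add_mem h (U.smul_mem (β v v / (2 * β u v)) huU)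
    simpa [hv'] using this
  have huv' : β u v' = β u v := by simp [hv', huu]
  have hv'v' : β v' v' = 0 := by
    have h3 : β v u = β u v := hs _ _
    simp only [hv', map_sub, map_smul, LinearMap.sub_apply, LinearMap.smul_apply, smul_eq_mul, huu,
      h3]
    field_simp
    ring
  have hv'T : v' ∉ T := fun h => hv'U (hTU h)
  set U' := T ⊔ K ∙ v' with hU'
  have hU'dim : finrank K U' = 3 := by rw [hU', finrank_sup_span hv'T, hT]
  have hU'i : U' ≤ β.orthogonal U' := iso_sup_span β hs hTi hv'P hv'v'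
  have hTU' : T ≤ U' := le_sup_left
  have hv'U' : v' ∈ U' := mem_sup_right (mem_span_singleton_self _)
  have hne : U ≠ U' := fun h => hv'U (h ▸ hv'U')
  have hPeq : P = U ⊔ K ∙ v' := eq_sup_span hUP (by rw [hUdim, hPdim]) hv'P hv'U
  refine ⟨U, U', hne, fun B => ⟨?_, ?_⟩, ?_⟩
  · rintro ⟨hTB, hB, hBi⟩
    obtain ⟨w, hwB, hwT, hBw⟩ := exists_sup_span hTB (by rw [hB, hT])
    have hwP : w ∈ P := fun n hn => hBi hwB n (hTB hn)
    rw [hPeq, hUu] at hwP
    obtain ⟨x, hx, y, hy, rfl⟩ := mem_sup.1 hwP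
    obtain ⟨l, hl, z, hz, rfl⟩ := mem_sup.1 hx
    obtain ⟨a, rfl⟩ := mem_span_singleton.1 hz
    obtain ⟨b, rfl⟩ := mem_span_singleton.1 hy
    have hww : β (l + a • u + b • v') (l + a • u + b • v') = 0 := hBi hwB _ hwB
    have h1 : β l l = 0 := hTi hl l hl
    have h3 : β l u = 0 := hUP huU l hl
    have h4 : β l v' = 0 := hv'P l hl
    have h5 : β u l = 0 := by rw [hs]; exact h3
    have h6 : β v' l = 0 := by rw [hs]; exact h4
    have h7 : β v' u = β u v := by rw [hs]; exact huv'
    simp only [map_add, map_smul, LinearMap.add_apply, LinearMap.smul_apply, smul_eq_mul, h1, h3,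
      h4, h5, h6, h7, huu, huv', hv'v'] at hww
    have hab : 2 * β u v * (a * b) = 0 := by linear_combination hww
    rcases mul_eq_zero.1 ((mul_eq_zero.1 hab).resolve_left (mul_ne_zero h2 huv)) with ha | hb
    · right
      apply eq_of_le_of_finrank_eq _ (by rw [hB, hU'dim])
      rw [hBw]
      refine sup_le hTU' ((span_singleton_le_iff_mem _ _).2 ?_)
      subst ha
      simpa using U'.add_mem (hTU' hl) (U'.smul_mem b hv'U')
    · left
      apply eq_of_le_of_finrank_eq _ (by rw [hB, hUdim])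
      rw [hBw]
      refine sup_le hTU ((span_singleton_le_iff_mem _ _).2 ?_)
      subst hb
      simpa using U.add_mem (hTU hl) (U.smul_mem a huU)
  · rintro (rfl | rfl)
    · exact ⟨hTU, hUdim, hUi⟩
    · exact ⟨hTU', hU'dim, hU'i⟩
  · rw [hUB, e2]
    suffices hh : B0 ⊓ T = U' ⊓ B0 by rw [hh]
    apply le_antisymm
    · exact le_inf (inf_le_right.trans hTU') inf_le_left
    · refine le_inf inf_le_right ?_
      have hU'P : U' ≤ P := fun x hx n hn => hU'i hx n (hTU' hn)
      have h1 : U' ⊓ B0 ≤ U' ⊓ U :=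
        le_inf inf_le_left ((le_inf inf_le_right (inf_le_left.trans hU'P)).trans le_sup_right)
      refine h1.trans (le_of_eq ?_)
      symm
      apply eq_of_le_of_finrank_le (le_inf hTU' hTU)
      have h3 : U' ⊓ U < U := lt_of_le_of_ne inf_le_right (fun h => hne (by
        apply eq_of_le_of_finrank_eq _ (by rw [hUdim, hU'dim])
        rw [← h]; exact inf_le_left))
      have := finrank_lt_finrank_of_lt h3
      omega

end Forms

end Pool.Agent.P.MP_bdb267_co
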