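import Pool.Agent.P.MP_bdb267_co.Perp
import Pool.Agent.P.MP_bdb267_co.Count

/-! The planes that are isotropic for some form `(x, y) ↦ φ (c x y)`, and the balanced signing. -/

namespace Pool.Agent.P.MP_bdb267_co

open Module Submodule

variable {K L : Type*} [Field K] [Field L] [Algebra K L] [FiniteDimensional K L]

/-- The multiplicative stabiliser of a subspace. -/
def Stab (B : Submodule K L) : IntermediateField K L :=
  Subalgebra.IsAlgebraic.toIntermediateField
    (S := { carrier := {a | ∀ b ∈ B, a * b ∈ B}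
            mul_mem' := fun {a a'} ha ha' b hb => by rw [mul_assoc]; exact ha _ (ha' b hb)
            add_mem' := fun {a a'} ha ha' b hb => by
              rw [add_mul]; exact B.add_mem (ha b hb) (ha' b hb)
            algebraMap_mem' := fun r b hb => by
              rw [← Algebra.smul_def]; exact B.smul_mem r hb })
    (fun x _ => Algebra.IsAlgebraic.isAlgebraic x)

lemma mem_Stab {B : Submodule K L} {a : L} : a ∈ Stab B ↔ ∀ b ∈ B, a * b ∈ B := Iff.rfl

lemma finrank_Stab_dvd (B : Submodule K L) : finrank K (Stab B) ∣ finrank K B := by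
  let B' : Submodule (Stab B) L :=
    { carrier := B
      add_mem' := B.add_mem
      zero_mem' := B.zero_mem
      smul_mem' := fun a b hb => a.2 b hb }
  have e : finrank K B' = finrank K B := rfl
  rw [← e, ← Module.finrank_mul_finrank K (Stab B) B']
  exact dvd_mul_right _ _

omit [FiniteDimensional K L] in
lemma subfield_le [Finite L] {S S' : IntermediateField K L} (h : finrank K S = finrank K S') :
    S ≤ S' := by
  obtain ⟨f⟩ := FiniteField.nonempty_algHom_of_finrank_dvd (F := K) (K := S) (L := S') h.dvd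
  rw [← AlgHom.fieldRange_of_normal (S'.val.comp f)]
  rintro _ ⟨x, rfl⟩
  exact (f x).2

variable {φ : L →ₗ[K] K}

lemma mem_Kill_iff_Stab (hφ : φ ≠ 0) (hL : finrank K L = 6) {B : Submodule K L}
    (hB : finrank K B = 3) {c : L} (hc0 : c ≠ 0) (hc : c ∈ Kill φ B) {d : L} :
    d ∈ Kill φ B ↔ d / c ∈ Stab B := by
  have e := perp_eq_self hφ hL hc0 hB hc
  have h1 : ∀ x y : L, c * x * (d / c * y) = d * x * y := fun x y => by field_simp
  rw [mem_Kill, mem_Stab]
  constructor
  · intro h b hb
    rw [← e, mem_perp]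
    intro x hx
    rw [h1]; exact h x hx b hb
  · intro h x hx y hy
    rw [← h1]; exact hc x hx _ (h y hy)

lemma finrank_Kill (hφ : φ ≠ 0) (hL : finrank K L = 6) {B : Submodule K L}
    (hB : finrank K B = 3) {c : L} (hc0 : c ≠ 0) (hc : c ∈ Kill φ B) :
    finrank K (Kill φ B) = finrank K (Stab B) := by
  have e : Kill φ B = (Subalgebra.toSubmodule (Stab B).toSubalgebra).map (LinearMap.mulLeft K c) := by
    ext d
    rw [mem_Kill_iff_Stab hφ hL hB hc0 hc, mem_map]
    constructor
    · intro h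
      exact ⟨d / c, h, by simp [mul_div_cancel₀ _ hc0]⟩
    · rintro ⟨a, ha, rfl⟩
      simpa [mul_div_cancel_left₀ _ hc0] using ha
  rw [e, ← (equivMapOfInjective (LinearMap.mulLeft K c) (mul_right_injective₀ hc0) _).finrank_eq]
  rfl

lemma finrank_Kill_cases (hφ : φ ≠ 0) (hL : finrank K L = 6) {B : Submodule K L}
    (hB : finrank K B = 3) (hK : Kill φ B ≠ ⊥) :
    finrank K (Kill φ B) = 1 ∨ finrank K (Kill φ B) = 3 := by
  obtain ⟨c, hc, hc0⟩ := (Submodule.ne_bot_iff _).1 hK
  rw [finrank_Kill hφ hL hB hc0 hc]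
  have := finrank_Stab_dvd B
  rw [hB] at this
  exact (Nat.dvd_prime Nat.prime_three).1 this

lemma Kill_eq [Finite L] (hφ : φ ≠ 0) (hL : finrank K L = 6) {B B' : Submodule K L}
    (hB : finrank K B = 3) (hB' : finrank K B' = 3) (hK : finrank K (Kill φ B) = 3)
    (hK' : finrank K (Kill φ B') = 3) {P : Submodule K L} (hP : finrank K P = 1)
    (h : P ≤ Kill φ B) (h' : P ≤ Kill φ B') : Kill φ B = Kill φ B' := by
  have hP0 : P ≠ ⊥ := by rintro rfl; simp at hP
  obtain ⟨c, hc, hc0⟩ := (Submodule.ne_bot_iff _).1 hP0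
  have e : finrank K (Stab B) = finrank K (Stab B') := by
    rw [← finrank_Kill hφ hL hB hc0 (h hc), ← finrank_Kill hφ hL hB' hc0 (h' hc), hK, hK']
  ext d
  rw [mem_Kill_iff_Stab hφ hL hB hc0 (h hc), mem_Kill_iff_Stab hφ hL hB' hc0 (h' hc),
    le_antisymm (subfield_le e) (subfield_le e.symm)]

theorem exists_signs_killed [Finite K] (hodd : Odd (Nat.card K)) (h2 : (2 : K) ≠ 0)
    (hφ : φ ≠ 0) (hL : finrank K L = 6) :
    ∃ χ : Submodule K L → ℤ, (∀ B, Kill φ B = ⊥ → χ B = 0) ∧
      (∀ B : Submodule K L, finrank K B = 3 → Kill φ B ≠ ⊥ → χ B = 1 ∨ χ B = -1) ∧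
      ∀ (T : Submodule K L) (s : Finset (Submodule K L)), finrank K T = 2 →
        (∀ B, B ∈ s ↔ finrank K B = 3 ∧ T ≤ B) → ∑ B ∈ s, χ B = 0 := by
  classical
  have : Finite L := Module.finite_of_finite K
  have : Fintype (Submodule K L) := Fintype.ofFinite _
  set pts : Finset (Submodule K L) := Finset.univ.filter (fun P => finrank K P = 1) with hpts
  have hmem : ∀ P, P ∈ pts ↔ finrank K P = 1 := fun P => by simp [hpts]
  let γ : Submodule K L → Set (Submodule K L) := fun P =>
    {B | (finrank K B = 3 ∧ finrank K (Kill φ B) = 3) ∧ P ≤ Kill φ B}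
  obtain ⟨ε, hε, hε'⟩ := exists_signs pts γ
  let pick : Set (Submodule K L) → Submodule K L := fun s => if h : s.Nonempty then h.some else ⊥
  have hpick : ∀ s : Set (Submodule K L), s.Nonempty → pick s ∈ s := fun s hs => by
    simp only [pick, dif_pos hs]; exact hs.some_mem
  let B0 : Submodule K L → Submodule K L := fun P =>
    if (γ P).Nonempty then pick (γ P) else pick {B | finrank K B = 3 ∧ P ≤ Kill φ B}
  have hB0 : ∀ P B : Submodule K L, finrank K B = 3 → P ≤ Kill φ B →
      finrank K (B0 P) = 3 ∧ P ≤ Kill φ (B0 P) := by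
    intro P B hB hPB
    by_cases h : (γ P).Nonempty
    · rw [show B0 P = pick (γ P) from if_pos h]
      exact ⟨(hpick _ h).1.1, (hpick _ h).2⟩
    · rw [show B0 P = pick {B | finrank K B = 3 ∧ P ≤ Kill φ B} from if_neg h]
      exact hpick {B | finrank K B = 3 ∧ P ≤ Kill φ B} ⟨B, hB, hPB⟩
  refine ⟨fun B => ∑ P ∈ pts.filter (fun P => P ≤ Kill φ B),
    ε P * (-1) ^ finrank K (B ⊓ B0 P : Submodule K L), ?_, ?_, ?_⟩
  · intro B hB
    apply Finset.sum_eq_zero
    intro P hP
    rw [Finset.mem_filter, hB, le_bot_iff, hmem] at hP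
    obtain ⟨h1, rfl⟩ := hP
    simp at h1
  · intro B hB hK
    rcases finrank_Kill_cases hφ hL hB hK with h | h
    · have e : pts.filter (fun P => P ≤ Kill φ B) = {Kill φ B} := by
        ext P
        rw [Finset.mem_filter, hmem, Finset.mem_singleton]
        exact ⟨fun hP => eq_of_le_of_finrank_eq hP.2 (by rw [hP.1, h]),
          fun hP => by rw [hP]; exact ⟨h, le_rfl⟩⟩
      simp only [e, Finset.sum_singleton]
      rcases hε (Kill φ B) with h1 | h1 <;>
        rcases neg_one_pow_eq_or ℤ (finrank K (B ⊓ B0 (Kill φ B) : Submodule K L)) with h3 | h3 <;>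
        simp [h1, h3]
    · obtain ⟨c, hc, hc0⟩ := (Submodule.ne_bot_iff _).1 hK
      set P0 : Submodule K L := K ∙ c with hP0
      have hP0r : finrank K P0 = 1 := finrank_span_singleton hc0
      have hP0B : P0 ≤ Kill φ B := (span_singleton_le_iff_mem _ _).2 hc
      have hBγ : B ∈ γ P0 := ⟨⟨hB, h⟩, hP0B⟩
      have e : pts.filter (fun P => P ≤ Kill φ B) = pts.filter (fun P => γ P = γ P0) := by
        apply Finset.filter_congr
        intro P hP
        rw [hmem] at hP
        constructor
        · intro hPB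
          ext B'
          constructor
          · rintro ⟨hB', hPB'⟩
            exact ⟨hB', by rw [← Kill_eq hφ hL hB hB'.1 h hB'.2 hP hPB hPB']; exact hP0B⟩
          · rintro ⟨hB', hPB'⟩
            exact ⟨hB', by rw [← Kill_eq hφ hL hB hB'.1 h hB'.2 hP0r hP0B hPB']; exact hPB⟩
        · intro hγ
          have : B ∈ γ P := by rw [hγ]; exact hBγ
          exact this.2
      have hcard : Odd (pts.filter (fun P => γ P = γ P0)).card := by
        have h1 := ncard_points_le (Kill φ B) h
        have h3 : {P : Submodule K L | finrank K P = 1 ∧ P ≤ Kill φ B} =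
            ↑(pts.filter (fun P => P ≤ Kill φ B)) := by
          ext P; simp [hmem]
        rw [h3, Set.ncard_coe_finset, e] at h1
        rw [h1]
        simp only [Finset.sum_range_succ, Finset.range_zero, Finset.sum_empty, zero_add, pow_zero,
          pow_one]
        exact ((odd_one.add_odd hodd).add_odd hodd.pow)
      have e2 : ∑ P ∈ pts.filter (fun P => γ P = γ P0),
          ε P * (-1) ^ finrank K (B ⊓ B0 P : Submodule K L) =
          (-1) ^ finrank K (B ⊓ B0 P0 : Submodule K L) := by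
        rw [← one_mul ((-1 : ℤ) ^ finrank K (B ⊓ B0 P0 : Submodule K L)), ← hε' _ hcard,
          Finset.sum_mul]
        refine Finset.sum_congr rfl fun P hP => ?_
        have hγ : γ P = γ P0 := (Finset.mem_filter.1 hP).2
        have : B0 P = B0 P0 := by
          have hne : (γ P0).Nonempty := ⟨B, hBγ⟩
          rw [show B0 P0 = pick (γ P0) from if_pos hne,
            show B0 P = pick (γ P) from if_pos (hγ ▸ hne), hγ]
        rw [this]
      simp only [e, e2]
      exact neg_one_pow_eq_or ℤ _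
  · intro T s hT hs
    simp only [Finset.sum_filter]
    rw [Finset.sum_comm]
    refine Finset.sum_eq_zero fun P hP => ?_
    rw [← Finset.sum_filter, ← Finset.mul_sum]
    apply mul_eq_zero_of_right
    rcases (s.filter (fun B => P ≤ Kill φ B)).eq_empty_or_nonempty with h | ⟨B1, hB1⟩
    · rw [h, Finset.sum_empty]
    rw [Finset.mem_filter, hs] at hB1
    obtain ⟨h3, h4⟩ := hB0 P B1 hB1.1.1 hB1.2
    have hP0 : P ≠ ⊥ := by rintro rfl; simp [hmem] at hP
    obtain ⟨c, hc, hc0⟩ := (Submodule.ne_bot_iff _).1 hP0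
    have hPc : P = K ∙ c := by
      symm
      apply eq_of_le_of_finrank_eq ((span_singleton_le_iff_mem _ _).2 hc)
      rw [finrank_span_singleton hc0, (hmem P).1 hP]
    have hiff : ∀ B, P ≤ Kill φ B ↔ B ≤ (beta φ c).orthogonal B := fun B => by
      rw [hPc, span_singleton_le_iff_mem, mem_Kill_iff_le]; rfl
    obtain ⟨U, U', hne, hU, hr⟩ := parity (beta φ c) (beta_symm φ c) (beta_nondeg φ hφ hc0) h2 hL
      (B0 P) h3 ((hiff _).1 h4) T hT
      (hB1.1.2.trans (((hiff _).1 hB1.2).trans (LinearMap.BilinForm.orthogonal_le hB1.1.2)))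
    have e : s.filter (fun B => P ≤ Kill φ B) = {U, U'} := by
      ext B
      rw [Finset.mem_filter, hs, hiff, Finset.mem_insert, Finset.mem_singleton, ← hU]
      tauto
    rw [e, Finset.sum_pair hne, hr, pow_succ]
    ring

theorem exists_balanced [Finite K] (hodd : Odd (Nat.card K)) (h2 : (2 : K) ≠ 0)
    (hL : finrank K L = 6) :
    ∃ χ : Submodule K L → ℤ, (∀ B : Submodule K L, finrank K B = 3 → χ B = 1 ∨ χ B = -1) ∧
      ∀ (T : Submodule K L) (s : Finset (Submodule K L)), finrank K T = 2 →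
        (∀ B, B ∈ s ↔ finrank K B = 3 ∧ T ≤ B) → ∑ B ∈ s, χ B = 0 := by
  classical
  obtain ⟨φ, hφ⟩ : ∃ φ : L →ₗ[K] K, φ ≠ 0 := by
    by_contra! h
    exact one_ne_zero ((Module.forall_dual_apply_eq_zero_iff K (1 : L)).1 fun f => by simp [h f])
  obtain ⟨χ₁, h1, h1'⟩ := exists_signs_free hφ hL
  obtain ⟨χ₂, h3, h4, h5⟩ := exists_signs_killed hodd h2 hφ hL
  refine ⟨fun B => (if Kill φ B = ⊥ then χ₁ B else 0) + χ₂ B, fun B hB => ?_, fun T s hT hs => ?_⟩
  · by_cases h : Kill φ B = ⊥
    · simpa [h, h3 B h] using h1 B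
    · simpa [h] using h4 B hB h
  · rw [Finset.sum_add_distrib, h5 T s hT hs, ← Finset.sum_filter, h1' T _ hT, add_zero]
    intro B
    rw [Finset.mem_filter, hs]

end Pool.Agent.P.MP_bdb267_co
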