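import Pool.Agent.P.MP_bdb267_co.Forms

/-! The forms `(x, y) ↦ φ (c x y)` on a field extension of degree six, and the planes that are
isotropic for none of them. -/

namespace Pool.Agent.P.MP_bdb267_co

open Module Submodule

variable {K L : Type*} [Field K] [Field L] [Algebra K L] (φ : L →ₗ[K] K)

/-- The symmetric bilinear form `(x, y) ↦ φ (c x y)`. -/
def beta (c : L) : LinearMap.BilinForm K L :=
  LinearMap.mk₂ K (fun x y => φ (c * x * y))
    (fun x x' y => by rw [mul_add, add_mul, map_add])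
    (fun a x y => by rw [mul_smul_comm, smul_mul_assoc, map_smul])
    (fun x y y' => by rw [mul_add, map_add])
    (fun a x y => by rw [mul_smul_comm, map_smul])

@[simp] lemma beta_apply (c x y : L) : beta φ c x y = φ (c * x * y) := rfl

lemma beta_symm (c x y : L) : beta φ c x y = beta φ c y x := by
  simp only [beta_apply]; congr 1; ring

lemma beta_nondeg (hφ : φ ≠ 0) {c : L} (hc : c ≠ 0) : (beta φ c).Nondegenerate := by
  have key : ∀ x, (∀ y, beta φ c x y = 0) → x = 0 := by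
    intro x hx
    by_contra h
    apply hφ
    ext z
    have := hx ((c * x)⁻¹ * z)
    rw [beta_apply, mul_inv_cancel_left₀ (mul_ne_zero hc h)] at this
    simpa using this
  exact ⟨key, fun x hx => key x fun y => by rw [beta_symm]; exact hx y⟩

/-- The orthogonal complement for `beta φ c`. -/
def perp (c : L) (B : Submodule K L) : Submodule K L := (beta φ c).orthogonal B

lemma mem_perp {c x : L} {B : Submodule K L} : x ∈ perp φ c B ↔ ∀ b ∈ B, φ (c * b * x) = 0 :=
  Iff.rfl

/-- The set of `c` for which `B` is totally isotropic. -/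
def Kill (B : Submodule K L) : Submodule K L where
  carrier := {c | ∀ x ∈ B, ∀ y ∈ B, φ (c * x * y) = 0}
  add_mem' := fun {a b} ha hb x hx y hy => by
    rw [add_mul, add_mul, map_add, ha x hx y hy, hb x hx y hy, add_zero]
  zero_mem' := fun x _ y _ => by simp
  smul_mem' := fun a c hc x hx y hy => by
    rw [smul_mul_assoc, smul_mul_assoc, map_smul, hc x hx y hy, smul_zero]

lemma mem_Kill {c : L} {B : Submodule K L} :
    c ∈ Kill φ B ↔ ∀ x ∈ B, ∀ y ∈ B, φ (c * x * y) = 0 := Iff.rfl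

lemma mem_Kill_iff_le {c : L} {B : Submodule K L} : c ∈ Kill φ B ↔ B ≤ perp φ c B :=
  ⟨fun h y hy x hx => h x hx y hy, fun h x hx _ hy => h hy x hx⟩

lemma perp_perp_eq {c d : L} (hc : c ≠ 0) (hd : d ≠ 0) (e : L) (B : Submodule K L) :
    perp φ e (perp φ c B) = perp φ (e * d / c) (perp φ d B) := by
  ext x
  simp only [mem_perp]
  constructor
  · intro h z hz
    have := h (d / c * z) fun b hb => by
      rw [← hz b hb]; congr 1; field_simp
    rw [← this]; congr 1; field_simp
  · intro h y hy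
    have := h (c / d * y) fun b hb => by
      rw [← hy b hb]; congr 1; field_simp
    rw [← this]; congr 1; field_simp

/-- All the orthogonal complements of `B`. -/
def orb (B : Submodule K L) : Set (Submodule K L) := {X | ∃ c, c ≠ 0 ∧ X = perp φ c B}

lemma orb_perp {c d : L} (hc : c ≠ 0) (hd : d ≠ 0) (B : Submodule K L) :
    orb φ (perp φ c B) = orb φ (perp φ d B) := by
  have key : ∀ {c d : L}, c ≠ 0 → d ≠ 0 → orb φ (perp φ c B) ⊆ orb φ (perp φ d B) := by
    rintro c d hc hd X ⟨e, he, rfl⟩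
    exact ⟨e * d / c, div_ne_zero (mul_ne_zero he hd) hc, perp_perp_eq φ hc hd e B⟩
  exact (key hc hd).antisymm (key hd hc)

lemma exists_antisymm (X : Type*) : ∃ s : X → X → ℤ, (∀ a b, s a b = 1 ∨ s a b = -1) ∧
    ∀ a b, a ≠ b → s a b + s b a = 0 := by
  classical
  obtain ⟨_, -⟩ := exists_wellFoundedLT X
  refine ⟨fun a b => if a < b then 1 else -1, fun a b => by by_cases h : a < b <;> simp [h],
    fun a b hab => ?_⟩
  rcases lt_or_gt_of_ne hab with h | h
  · simp [h, h.not_gt]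
  · simp [h, h.not_gt]

variable [FiniteDimensional K L] {φ}

lemma finrank_perp (hφ : φ ≠ 0) (hL : finrank K L = 6) {c : L} (hc : c ≠ 0) {B : Submodule K L}
    (hB : finrank K B = 3) : finrank K (perp φ c B) = 3 := by
  rw [perp, LinearMap.BilinForm.finrank_orthogonal (beta_nondeg φ hφ hc), hL, hB]

lemma perp_perp (hφ : φ ≠ 0) {c : L} (hc : c ≠ 0) (B : Submodule K L) :
    perp φ c (perp φ c B) = B :=
  LinearMap.BilinForm.orthogonal_orthogonal (beta_nondeg φ hφ hc)
    (fun x y h => by rw [beta_symm]; exact h) B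

lemma perp_eq_self (hφ : φ ≠ 0) (hL : finrank K L = 6) {c : L} (hc : c ≠ 0) {B : Submodule K L}
    (hB : finrank K B = 3) (h : c ∈ Kill φ B) : perp φ c B = B :=
  (eq_of_le_of_finrank_eq ((mem_Kill_iff_le φ).1 h) (by rw [finrank_perp hφ hL hc hB, hB])).symm

lemma Kill_perp (hφ : φ ≠ 0) (hL : finrank K L = 6) {c : L} (hc : c ≠ 0) {B : Submodule K L}
    (hB : finrank K B = 3) (h : Kill φ B = ⊥) : Kill φ (perp φ c B) = ⊥ := by
  rw [eq_bot_iff]
  intro d hd
  by_contra hd0
  have hd0 : d ≠ 0 := hd0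
  have e := perp_eq_self hφ hL hd0 (finrank_perp hφ hL hc hB) hd
  have h1 : ∀ b ∈ B, c / d * b ∈ perp φ c B := by
    intro b hb
    rw [← e]
    intro x hx
    have := hx b hb
    rw [beta_apply] at this ⊢
    rw [← this]; congr 1; field_simp
  have h2 : c * c / d ∈ Kill φ B := by
    intro x hx y hy
    have := h1 y hy x hx
    rw [beta_apply] at this
    rw [← this]; congr 1; field_simp
  rw [h] at h2
  exact div_ne_zero (mul_ne_zero hc hc) hd0 h2

lemma exists_ann (φ : L →ₗ[K] K) (hL : finrank K L = 6) {T B : Submodule K L}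
    (hT : finrank K T = 2) (hB : finrank K B = 3) (hTB : T ≤ B) :
    ∃ c : L, c ≠ 0 ∧ T ≤ perp φ c B := by
  obtain ⟨w, hwB, hwT, hw⟩ := exists_sup_span hTB (by rw [hB, hT])
  let b := Module.finBasisOfFinrankEq K T hT
  let v : Fin 5 → L := ![b 0 * b 0, b 0 * b 1, b 1 * b 1, b 0 * w, b 1 * w]
  let f : L →ₗ[K] (Fin 5 → K) := LinearMap.pi fun i => φ.comp (LinearMap.mulRight K (v i))
  have hker : LinearMap.ker f ≠ ⊥ := LinearMap.ker_ne_bot_of_finrank_lt (by simp [hL])
  obtain ⟨c, hc, hc0⟩ := (Submodule.ne_bot_iff _).1 hker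
  have hf : ∀ i, φ (c * v i) = 0 := fun i => congrFun hc i
  have h0 : φ (c * (b 0 * b 0)) = 0 := hf 0
  have h1 : φ (c * (b 0 * b 1)) = 0 := hf 1
  have h2 : φ (c * (b 1 * b 1)) = 0 := hf 2
  have h3 : φ (c * (b 0 * w)) = 0 := hf 3
  have h4 : φ (c * (b 1 * w)) = 0 := hf 4
  have hrep : ∀ t ∈ T, ∃ r s : K, t = r • (b 0 : L) + s • (b 1 : L) := by
    intro t ht
    refine ⟨b.repr ⟨t, ht⟩ 0, b.repr ⟨t, ht⟩ 1, ?_⟩
    have := congrArg Subtype.val (b.sum_repr ⟨t, ht⟩)
    rw [Fin.sum_univ_two] at this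
    exact this.symm
  refine ⟨c, hc0, fun t ht y hy => ?_⟩
  rw [hw] at hy
  obtain ⟨t', ht', z, hz, rfl⟩ := mem_sup.1 hy
  obtain ⟨a, rfl⟩ := mem_span_singleton.1 hz
  obtain ⟨r, s, rfl⟩ := hrep t ht
  obtain ⟨r', s', rfl⟩ := hrep t' ht'
  have e : c * (r' • (b 0 : L) + s' • (b 1 : L) + a • w) * (r • (b 0 : L) + s • (b 1 : L)) =
      (r' * r) • (c * (b 0 * b 0)) + (r' * s + s' * r) • (c * (b 0 * b 1)) +
        (s' * s) • (c * (b 1 * b 1)) + (a * r) • (c * (b 0 * w)) + (a * s) • (c * (b 1 * w)) := by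
    simp only [Algebra.smul_def, map_mul, map_add]; ring
  rw [beta_apply, e]
  simp [h0, h1, h2, h3, h4]

lemma perp_unique {T B : Submodule K L} (hT : finrank K T = 2) (hB : finrank K B = 3)
    (hTB : T ≤ B) (hK : Kill φ B = ⊥) {c d : L} (hc : c ≠ 0) (hd : d ≠ 0)
    (h1 : T ≤ perp φ c B) (h2 : T ≤ perp φ d B) : perp φ c B = perp φ d B := by
  obtain ⟨w, hwB, hwT, hw⟩ := exists_sup_span hTB (by rw [hB, hT])
  have key : ∀ e : L, T ≤ perp φ e B → φ (e * w * w) = 0 → e = 0 := by
    intro e he hew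
    have : e ∈ Kill φ B := by
      intro x hx y hy
      have hy' := hy
      rw [hw] at hx hy'
      obtain ⟨t, ht, z, hz, rfl⟩ := mem_sup.1 hx
      obtain ⟨a, rfl⟩ := mem_span_singleton.1 hz
      obtain ⟨t', ht', z', hz', rfl⟩ := mem_sup.1 hy'
      obtain ⟨a', rfl⟩ := mem_span_singleton.1 hz'
      have e1 : φ (e * (t' + a' • w) * t) = 0 := he ht _ hy
      have e2 : φ (e * w * t') = 0 := he ht' _ hwB
      have e3 : e * (t + a • w) * (t' + a' • w) =
          e * (t' + a' • w) * t + a • (e * w * t') + (a * a') • (e * w * w) := by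
        simp only [Algebra.smul_def, map_mul]; ring
      rw [e3]
      simp [e1, e2, hew]
    rw [hK] at this
    exact this
  have hcw : φ (c * w * w) ≠ 0 := fun h => hc (key c h1 h)
  have hdw : φ (d * w * w) ≠ 0 := fun h => hd (key d h2 h)
  have he : φ (d * w * w) • c - φ (c * w * w) • d = 0 := by
    apply key
    · intro t ht y hy
      have e1 : φ (c * y * t) = 0 := h1 ht y hy
      have e2 : φ (d * y * t) = 0 := h2 ht y hy
      simp [sub_mul, e1, e2]
    · simp only [sub_mul, smul_mul_assoc, map_sub, map_smul, smul_eq_mul]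
      ring
  have he' : ∀ b x : L, φ (d * w * w) * φ (c * b * x) = φ (c * w * w) * φ (d * b * x) := by
    intro b x
    have := congrArg (fun e => φ (e * b * x)) (sub_eq_zero.1 he)
    simpa using this
  ext x
  simp only [mem_perp]
  refine forall₂_congr fun b _ => ⟨fun h => ?_, fun h => ?_⟩
  · have := he' b x
    rw [h, mul_zero] at this
    exact (mul_eq_zero.1 this.symm).resolve_left hcw
  · have := he' b x
    rw [h, mul_zero] at this
    exact (mul_eq_zero.1 this).resolve_left hdw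

/-- The planes isotropic for no form can be signed so that the signs cancel on every line. -/
theorem exists_signs_free (hφ : φ ≠ 0) (hL : finrank K L = 6) :
    ∃ χ : Submodule K L → ℤ, (∀ B, χ B = 1 ∨ χ B = -1) ∧
      ∀ (T : Submodule K L) (s : Finset (Submodule K L)), finrank K T = 2 →
        (∀ B, B ∈ s ↔ (finrank K B = 3 ∧ T ≤ B) ∧ Kill φ B = ⊥) → ∑ B ∈ s, χ B = 0 := by
  obtain ⟨σ, hσ, hσ'⟩ := exists_antisymm (Set (Submodule K L))
  refine ⟨fun B => σ (orb φ (perp φ 1 B)) (orb φ B), fun B => hσ _ _, fun T s hT hs => ?_⟩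
  have hex : ∀ B ∈ s, ∃ c : L, c ≠ 0 ∧ T ≤ perp φ c B := fun B hB =>
    exists_ann φ hL hT ((hs B).1 hB).1.1 ((hs B).1 hB).1.2
  choose c hc0 hc using hex
  have hmem : ∀ B (hB : B ∈ s), perp φ (c B hB) B ∈ s := fun B hB =>
    (hs _).2 ⟨⟨finrank_perp hφ hL (hc0 B hB) ((hs B).1 hB).1.1, hc B hB⟩,
      Kill_perp hφ hL (hc0 B hB) ((hs B).1 hB).1.1 ((hs B).1 hB).2⟩
  have hsum : ∀ B (hB : B ∈ s), σ (orb φ (perp φ 1 B)) (orb φ B) +
      σ (orb φ (perp φ 1 (perp φ (c B hB) B))) (orb φ (perp φ (c B hB) B)) = 0 := by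
    intro B hB
    rw [orb_perp φ one_ne_zero (hc0 B hB) (perp φ (c B hB) B), perp_perp hφ (hc0 B hB),
      orb_perp φ (hc0 B hB) one_ne_zero B]
    apply hσ'
    intro h
    have h1 : B ∈ orb φ (perp φ 1 B) := ⟨1, one_ne_zero, (perp_perp hφ one_ne_zero B).symm⟩
    rw [h] at h1
    obtain ⟨e, he, heB⟩ := h1
    have : e ∈ Kill φ B := (mem_Kill_iff_le φ).2 heB.le
    rw [((hs B).1 hB).2] at this
    exact he this
  refine Finset.sum_involution (fun B hB => perp φ (c B hB) B) hsum ?_ hmem ?_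
  · intro B hB hne h
    have := hsum B hB
    rw [h] at this
    exact hne (by omega)
  · intro B hB
    have hX := (hs _).1 (hmem B hB)
    have := perp_unique hT hX.1.1 hX.1.2 hX.2 (hc0 _ (hmem B hB)) (hc0 B hB) (hc _ (hmem B hB))
      (by rw [perp_perp hφ (hc0 B hB)]; exact ((hs B).1 hB).1.2)
    rw [this, perp_perp hφ (hc0 B hB)]

end Pool.Agent.P.MP_bdb267_co
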